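import Mathlib
import Pool.Agent.H.MP_add2b9_al.Loc

set_option autoImplicit false

namespace Pool.Agent.Results.MP_add2b9_al.Std
open Matrix

def locSpec {n : ℕ} (T : Matrix (Fin n) (Fin n) ℂ) (x : Fin n → ℂ) : Set ℂ :=
  {l | l ∈ spectrum ℂ T ∧ ∃ c : ℂ →₀ (Fin n → ℂ),
    (∀ μ, (T - μ • (1 : Matrix (Fin n) (Fin n) ℂ)) ^ n *ᵥ c μ = 0) ∧
      x = c.sum (fun _ v => v) ∧ c l ≠ 0}

def exc {n : ℕ} (x0 : Fin n → ℂ) : Set (Matrix (Fin n) (Fin n) ℂ) :=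
  {T | (∃ c : ℂ, T *ᵥ x0 = c • x0) ∧ ∃ r s : ℂ, s ≠ 0 ∧
    (T - r • (1 : Matrix (Fin n) (Fin n) ℂ)) ^ 2 = s • (1 : Matrix (Fin n) (Fin n) ℂ)}

theorem result (n : ℕ) (x0 : Fin n → ℂ) (hx : x0 ≠ 0)
    (φ : Matrix (Fin n) (Fin n) ℂ → Matrix (Fin n) (Fin n) ℂ) :
    (∀ T S, locSpec (φ T * φ S - φ S * φ T) x0 = locSpec (T * S - S * T) x0) ↔
    ∃ (A : Matrix (Fin n) (Fin n) ℂ) (η ξ : Matrix (Fin n) (Fin n) ℂ → ℂ),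
      IsUnit A ∧ A *ᵥ x0 = x0 ∧ (∀ T, ξ T = 1 ∨ ξ T = -1) ∧
      (∀ T S, T ∉ exc x0 → S ∉ exc x0 → ξ T = ξ S) ∧
      ∀ T, φ T = ξ T • (A * T * A⁻¹) + η T • (1 : Matrix (Fin n) (Fin n) ℂ) := by
  have h := Pool.Agent.H.MP_add2b9_al.loc hx φ
  simp only [← Pool.Agent.H.MP_add2b9_al.LS_iff] at h
  simp only [Set.ext_iff]
  exact h

end Pool.Agent.Results.MP_add2b9_al.Std
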